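import Mathlib
import Pool.Agent.H12.Unital9b
import Pool.Agent.H12.TangDefs3

set_option autoImplicit false

namespace Pool.Agent.Results.MP_0e5d84_co.SizeGap

open scoped Classical Matroid
open Pool.Agent.H12.Tang Pool.Agent.H12.Unital9

/-- Excluding only the supersolvable tangential k-blocks can give a larger size function than
excluding all tangential k-blocks. -/
theorem result :
    ¬ ∀ (F : Type) [Field F] [Fintype F] (k n : ℕ), 1 ≤ k → 1 ≤ n →
      sizeFn F (fun _ N => Tangential F k N) n =
        sizeFn F (fun _ N => Tangential F k N ∧ Supersolvable N) n := by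
  intro h
  have := fact4
  let _ := fin4
  have h1 := h F4 1 3 le_rfl (by norm_num)
  have h2 : sizeFn F4 (fun _ N => Tangential F4 1 N) 3 ≤ 8 :=
    iSup_le fun _ => iSup_le fun M => iSup_le fun hM => upper M hM.1 hM.2.1 hM.2.2.1 hM.2.2.2
  have h3 : (9 : ℕ∞) ≤ sizeFn F4 (fun _ N => Tangential F4 1 N ∧ Supersolvable N) 3 :=
    le_iSup_of_le 9 (le_iSup_of_le M (le_iSup_of_le ⟨⟨3, v, hv⟩, simple, rank, no_minor⟩ card_E.ge))
  rw [← h1] at h3
  have h4 := h3.trans h2
  norm_cast at h4

end Pool.Agent.Results.MP_0e5d84_co.SizeGap
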